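import Pool.Agent.Y98.SD.Sub
import Pool.Agent.Y98.SD.Poset

/-!
# A criterion for the failure of the weak Lefschetz property for barycentric subdivisions

Let `P` be a finite partially ordered set, for example the set of the closed cells of a regular CW
complex `Γ` of dimension two. Let `Δ` be the order complex of `P` (the barycentric subdivision of
`Γ`), and suppose that `K[Δ]` is Cohen-Macaulay of dimension three and that `3 |P|` is less than
`6` plus the number of pairs `x < y` (that is, `h₁ < h₂` for `Δ`). If there is a lower set `D` in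
`P` (a subcomplex of `Γ`) which contains a chain of three elements, such that there are fewer than
`3 |P ∖ D|` pairs `x < y` with `y` outside `D`, then for every linear system of parameters `Θ` of
`K[Δ]` the Artinian quotient fails the weak Lefschetz property. More generally, it is enough that
there is a set `U` of vertices of `Δ`, missing some facet, such that fewer than `3 |U|` edges of
`Δ` meet `U`.

For a simplicial complex `Γ` with `f i` faces of dimension `i` the conditions are
`3 f₀ + f₁ < 3 f₂ + 6` and, for the numbers `g i` of the faces of dimension `i` outside the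
subcomplex, `3 g₂ < 3 g₀ + g₁`. This holds, for example, if `Γ` has a free vertex (a vertex which
lies in only one triangle and in two edges).
-/

set_option autoImplicit false

open MvPolynomial Pool.Agent.Results.MP_28b0d6_al.SubdivisionFailsWLP Pool.Agent.Y98.SD

universe u v w

namespace Pool.Agent.Results.MP_28b0d6_al.SparseComplement

/-- For every linear system of parameters of length three of `K[Δ]` the quotient fails the weak
Lefschetz property. -/
def FailsWLP (K : Type*) [Field K] {σ : Type*} (Δ : AbstractSimplicialComplex σ) : Prop :=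
  ∀ Θ : Fin 3 → MvPolynomial σ K, IsLSOP K Δ Θ →
    ¬ HasWLP (srIdeal K Δ ⊔ Ideal.span (Set.range Θ))

/-- **Failure of the weak Lefschetz property for the order complexes of finite partially ordered
sets, in particular for the barycentric subdivisions of regular CW complexes of dimension two, with
a sparse part.** -/
theorem result (K : Type w) [Field K] :
    (∀ (P : Type u) [PartialOrder P] [Finite P], IsCohenMacaulay K (orderComplex P) 3 →
      3 * Nat.card P < pairsOutside (∅ : Set P) + 6 →
      (∀ U : Finset P, (∃ F ∈ (orderComplex P).faces, F.card = 3 ∧ Disjoint F U) →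
        edgesMeeting (orderComplex P) U < 3 * U.card → FailsWLP K (orderComplex P)) ∧
      (∀ D : Set P, IsLowerSet D → (∃ a ∈ D, ∃ b ∈ D, ∃ c ∈ D, a < b ∧ b < c) →
        pairsOutside D < 3 * Dᶜ.ncard → FailsWLP K (orderComplex P))) ∧
    (∀ {V : Type v} (Γ : AbstractSimplicialComplex V) [Finite Γ.faces], HasDimSucc Γ 3 →
      IsCohenMacaulay K (sd Γ) 3 → 3 * fnum Γ 0 + fnum Γ 1 < 3 * fnum Γ 2 + 6 →
      (∀ D : Set (Finset V), IsSub Γ D → (∃ s ∈ D, s.card = 3) →
        3 * outside Γ D 2 < 3 * outside Γ D 0 + outside Γ D 1 → FailsWLP K (sd Γ)) ∧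
      (HasFreeVertex Γ → FailsWLP K (sd Γ))) := by
  classical
  refine ⟨?_, ?_⟩
  · intro P _ _ hCM hh
    have := Fintype.ofFinite P
    have hh' : 3 * Fintype.card P < edges (orderComplex P) + 6 := by
      have := pairs_le (P := P)
      rw [Nat.card_eq_fintype_card] at hh
      omega
    have hU : ∀ U : Finset P, (∃ F ∈ (orderComplex P).faces, F.card = 3 ∧ Disjoint F U) →
        edgesMeeting (orderComplex P) U < 3 * U.card → FailsWLP K (orderComplex P) := by
      rintro U ⟨F, hF, hc, hdis⟩ he Θ hΘ
      exact criterion hCM hF hc hdis he hh' hΘ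
    refine ⟨hU, ?_⟩
    rintro D hD ⟨a, ha, b, hb, c, hc, hab, hbc⟩ hlt
    have hmem : ∀ x, x ∈ Dᶜ.toFinset ↔ x ∉ D := fun x => by simp
    refine hU Dᶜ.toFinset (flag_disjoint hmem ha hb hc hab hbc) ?_
    refine (meeting_le hD hmem).trans_lt ?_
    rwa [← Set.ncard_eq_toFinset_card']
  · intro V Γ _ hd hCM hf
    have := Fintype.ofFinite Γ.faces
    have hU : ∀ U : Finset Γ.faces, (∃ F ∈ (sd Γ).faces, F.card = 3 ∧ Disjoint F U) →
        edgesMeeting (sd Γ) U < 3 * U.card → FailsWLP K (sd Γ) := by
      rintro U ⟨F, hF, hc, hdis⟩ he Θ hΘ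
      exact criterion hCM hF hc hdis he (h_lt hd.1 hf) hΘ
    refine ⟨fun D hD hT hg => ?_, fun hv => ?_⟩
    · exact hU _ (exists_flag hD hT) (sparse_compl hd.1 hD hg)
    · obtain ⟨U, h1, h2⟩ := exists_sparse hv
      exact hU U h1 h2

end Pool.Agent.Results.MP_28b0d6_al.SparseComplement
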